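import Pool.Agent.W2helper64.SOS.T1

set_option autoImplicit false

/-! S1FULL, piece P8b (helper64): `NumR1` -/

namespace Pool.Agent.W2helper64.SOS

open Pool.Agent.W2helper74.SOS

def chkB : Bool := (List.range 57).all fun i => (List.range (i + 8)).all fun r =>
  Nat.ble (r * r + 1) (4 * (i + 7)) || (Nat.ble ((r + 2) * (r + 2) + 1) (8 * (i + 7)) ||
    Nat.ble (gt (i + 7) + 2 * (r * r / 4)) ((i + 7) * r))

set_option maxRecDepth 100000 in
theorem chkB_true : chkB = true := by decide +kernel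

/-- a real inequality gives `t1'` -/
theorem t1r {n m : ℕ} (w : ℝ) (hw : 0 ≤ w) (hwn : w * w = n) (h : 2 * (w * w * w) ≤ (m : ℝ)) : InS n m := by
  apply t1'
  have h1 : (4 * (n * n) * n : ℝ) ≤ m * m := by
    have h2 : 0 ≤ 2 * (w * w * w) := by positivity
    have h3 := mul_self_le_mul_self h2 h
    have h4 : 2 * (w * w * w) * (2 * (w * w * w)) = 4 * ((w * w) * (w * w)) * (w * w) := by ring
    rw [h4, hwn] at h3
    exact h3
  have h2 : 4 * (n * n) * n ≤ m * m := by exact_mod_cast h1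
  calc 4 * (n * n) * (n - 1) ≤ 4 * (n * n) * n := Nat.mul_le_mul_left _ (Nat.sub_le _ _)
    _ ≤ m * m := h2

theorem numR1 : NumR1 := by
  intro n m r s x δ hn hr hx hs hnx hm hδ hL
  have h4 : 4 * n ≤ r * r := by
    have h1 : n ≤ n * x := Nat.le_mul_of_pos_right n hx
    have h2 : n ≤ r * r / 4 := by omega
    rw [Nat.le_div_iff_mul_le (by norm_num)] at h2
    omega
  have hδ1 : 1 ≤ δ := by
    rcases Nat.eq_zero_or_pos δ with h | h
    · subst h
      simp at hL
      omega
    · exact h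
  have h8 : 8 * n ≤ (r + 2) * (r + 2) := by
    obtain ⟨c, rfl⟩ : ∃ c, δ = c + 1 := ⟨δ - 1, by omega⟩
    obtain ⟨d, rfl⟩ : ∃ d, r = c + 1 + d := ⟨r - (c + 1), by omega⟩
    simp only [Nat.add_sub_cancel] at hL
    rw [show c + 1 + d - (c + 1) + 1 = d + 1 by omega] at hL
    have h1 : 2 * (1 + (d + 1) / 2) ≤ d + 3 := by omega
    have h2 : 2 * n ≤ c * (d + 3) := by
      calc 2 * n ≤ 2 * (c * (1 + (d + 1) / 2)) := Nat.mul_le_mul_left 2 hL
        _ = c * (2 * (1 + (d + 1) / 2)) := by ring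
        _ ≤ c * (d + 3) := Nat.mul_le_mul_left c h1
    zify at h2 ⊢
    nlinarith [sq_nonneg ((c : ℤ) - (d + 3))]
  have hm2 : n * r ≤ m + 2 * (r * r / 4) := by omega
  rcases Nat.lt_or_ge n 64 with h64 | h64
  · have h := chkB_true
    unfold chkB at h
    rw [List.all_eq_true] at h
    have h1 := h (n - 7) (by rw [List.mem_range]; omega)
    rw [show n - 7 + 7 = n by omega, show n - 7 + 8 = n + 1 by omega, List.all_eq_true] at h1
    have h2 := h1 r (by rw [List.mem_range]; omega)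
    rw [Bool.or_eq_true, Bool.or_eq_true, Nat.ble_eq, Nat.ble_eq, Nat.ble_eq] at h2
    have h3 : gt n ≤ m := by omega
    refine ⟨inS_of_gt hn h64 h3, ?_⟩
    intro h7
    subst h7
    exact h3
  · refine ⟨?_, by omega⟩
    refine t1r (Real.sqrt n) (Real.sqrt_nonneg _) (Real.mul_self_sqrt (Nat.cast_nonneg _)) ?_
    set w := Real.sqrt n with hw
    have hwn : w * w = n := Real.mul_self_sqrt (Nat.cast_nonneg _)
    have hw0 : 0 ≤ w := Real.sqrt_nonneg _
    have hw8 : 8 ≤ w := by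
      rw [hw]
      apply Real.le_sqrt_of_sq_le
      have : (64 : ℝ) ≤ n := by exact_mod_cast h64
      linarith
    have hr' : (r : ℝ) ≤ w * w := by rw [hwn]; exact_mod_cast hr
    have h8' : 8 * (w * w) ≤ ((r : ℝ) + 2) * (r + 2) := by rw [hwn]; exact_mod_cast h8
    have hr0 : 2.82 * w - 2 ≤ r := by
      by_contra hc
      push Not at hc
      have h1 : (0 : ℝ) ≤ r := Nat.cast_nonneg _
      nlinarith
    have hq : (2 : ℝ) * ((r * r / 4 : ℕ) : ℝ) ≤ r * r / 2 := by
      have h1 : 4 * (r * r / 4) ≤ r * r := Nat.mul_div_le _ _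
      have h2 : (4 : ℝ) * ((r * r / 4 : ℕ) : ℝ) ≤ r * r := by exact_mod_cast h1
      linarith
    have hm3 : w * w * r ≤ m + r * r / 2 := by
      have h1 : ((n * r : ℕ) : ℝ) ≤ ((m + 2 * (r * r / 4) : ℕ) : ℝ) := by exact_mod_cast hm2
      push_cast at h1
      rw [← hwn] at h1
      push_cast at hq
      linarith
    have hmono : (2.82 * w - 2) * (2 * (w * w) - (2.82 * w - 2)) ≤ (r : ℝ) * (2 * (w * w) - r) := by
      have : 0 ≤ ((r : ℝ) - (2.82 * w - 2)) * (2 * (w * w) - r - (2.82 * w - 2)) := by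
        apply mul_nonneg
        · linarith
        · nlinarith
      nlinarith
    have hfin : 4 * (w * w * w) ≤ (2.82 * w - 2) * (2 * (w * w) - (2.82 * w - 2)) := by
      have h1 : 0 ≤ (w - 8) := by linarith
      have h2 : 0 ≤ w * w := by positivity
      nlinarith [mul_nonneg h2 h1, mul_nonneg hw0 h1]
    nlinarith

end Pool.Agent.W2helper64.SOS
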