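import Pool.Agent.W2helper64.SOS.NumR1

set_option autoImplicit false

/-! S1FULL, piece P9 (helper64): `NumR2` -/

namespace Pool.Agent.W2helper64.SOS

open Pool.Agent.W2helper74.SOS

/-- `n = i + 7`, `b`, `x`, `J = b + 2 + k` -/
def chkC : Bool := (List.range 57).all fun i => (List.range ((i + 7) / 2 + 1)).all fun b =>
  (List.range b).all fun x => (List.range (i + 8 - (b + 2))).all fun k =>
    Nat.beq x 0 || (Nat.ble (b * (b - 1) + 1) (x * (2 * (i + 7 - (b + 2 + k)) + x + 1)) ||
      Nat.ble (gt (i + 7) + ((b + 2 + k) * (b + 1 + k) / 2 + b * (b - 1) / 2) + (i + 7) * x)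
        ((i + 7) * (b + 2 + k + b - 1)))

set_option maxRecDepth 100000 in
theorem chkC_true : chkC = true := by decide +kernel

theorem numR2 : NumR2 := by
  intro n m J b s x hn hJ hb hbJ h2b hx hs hs2 hm
  have tJ := two_mul_tri J
  have tb := two_mul_tri b
  have tJx : 2 * ((J - x) * (J - x - 1) / 2) = (J - x) * (J - x - 1) := two_mul_tri (J - x)
  have hxJ : x < J := by
    by_contra hc
    push Not at hc
    have h1 : n * J ≤ n * x := Nat.mul_le_mul_left n hc
    have h2 : 2 * (n * J) ≤ J * (J - 1) + b * (b - 1) := by omega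
    have h3 : J * (J - 1) ≤ n * J := by
      rw [mul_comm n J]
      exact Nat.mul_le_mul_left J (by omega)
    have h4 : b * (b - 1) < n * J := by
      calc b * (b - 1) ≤ b * J := Nat.mul_le_mul_left b (by omega)
        _ < n * J := Nat.mul_lt_mul_of_pos_right (by omega) (by omega)
    omega
  have hcon : x * (2 * (n - J) + x + 1) ≤ b * (b - 1) := by
    have h1 : 2 * (n * x) + (J - x) * (J - x - 1) ≤ J * (J - 1) + b * (b - 1) := by omega
    obtain ⟨u, hu⟩ : ∃ u, n = J + u := ⟨n - J, by omega⟩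
    obtain ⟨y, hy⟩ : ∃ y, J = x + 1 + y := ⟨J - (x + 1), by omega⟩
    rw [show J - x = y + 1 by omega, show y + 1 - 1 = y by omega] at h1
    have e1 : J * (J - 1) = (x + 1 + y) * (x + y) := by
      rw [hy]; congr 1; omega
    rw [e1] at h1
    rw [show n - J = u by omega]
    have e2 : 2 * (n * x) + (y + 1) * y = (x + 1 + y) * (x + y) + x * (2 * u + x + 1) := by
      rw [hu, hy]; ring
    omega
  have hxb : x + 1 ≤ b := by
    by_contra hc
    push Not at hc
    have h1 : b ≤ x := by omega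
    have h2 : b * b ≤ x * (2 * (n - J) + x + 1) := Nat.mul_le_mul h1 (by omega)
    have h3 : b * (b - 1) < b * b := Nat.mul_lt_mul_of_pos_left (by omega) (by omega)
    omega
  have hmain : n * (J + b - 1) ≤ m + (J * (J - 1) / 2 + b * (b - 1) / 2) + n * x := by omega
  rcases Nat.lt_or_ge n 64 with h64 | h64
  · have h := chkC_true
    unfold chkC at h
    rw [List.all_eq_true] at h
    have h1 := h (n - 7) (by rw [List.mem_range]; omega)
    rw [show n - 7 + 7 = n by omega, show n - 7 + 8 = n + 1 by omega, List.all_eq_true] at h1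
    have h2 := h1 b (by rw [List.mem_range]; omega)
    rw [List.all_eq_true] at h2
    have h3 := h2 x (by rw [List.mem_range]; omega)
    rw [List.all_eq_true] at h3
    have h4 := h3 (J - (b + 2)) (by rw [List.mem_range]; omega)
    rw [show b + 2 + (J - (b + 2)) = J by omega, show b + 1 + (J - (b + 2)) = J - 1 by omega] at h4
    rw [Bool.or_eq_true, Bool.or_eq_true, Nat.ble_eq, Nat.ble_eq] at h4
    have h3 : gt n ≤ m := by
      rcases h4 with h4 | h4 | h4
      · have := Nat.eq_of_beq_eq_true h4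
        omega
      · omega
      · omega
    refine ⟨inS_of_gt hn h64 h3, ?_⟩
    intro h7
    subst h7
    exact h3
  · refine ⟨?_, by omega⟩
    -- real version
    have hR : (2 : ℝ) * n * (J + b - 1 - x) ≤ 2 * m + J * (J - 1) + b * (b - 1) := by
      have h1 : 2 * (n * (J + b - 1)) ≤ 2 * m + J * (J - 1) + b * (b - 1) + 2 * (n * x) := by omega
      obtain ⟨J', rfl⟩ : ∃ J', J = J' + 1 := ⟨J - 1, by omega⟩
      obtain ⟨b', rfl⟩ : ∃ b', b = b' + 1 := ⟨b - 1, by omega⟩
      rw [show J' + 1 + (b' + 1) - 1 = J' + b' + 1 by omega, show J' + 1 - 1 = J' by omega,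
        show b' + 1 - 1 = b' by omega] at h1
      have h2 : ((2 * (n * (J' + b' + 1)) : ℕ) : ℝ) ≤
        ((2 * m + (J' + 1) * J' + (b' + 1) * b' + 2 * (n * x) : ℕ) : ℝ) := by exact_mod_cast h1
      push_cast at h2 ⊢
      nlinarith
    have hconR : (x : ℝ) * (2 * (n - J) + x + 1) ≤ b * (b - 1) := by
      obtain ⟨u, rfl⟩ : ∃ u, n = J + u := ⟨n - J, by omega⟩
      obtain ⟨b', rfl⟩ : ∃ b', b = b' + 1 := ⟨b - 1, by omega⟩
      rw [show J + u - J = u by omega, show b' + 1 - 1 = b' by omega] at hcon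
      have h2 : ((x * (2 * u + x + 1) : ℕ) : ℝ) ≤ (((b' + 1) * b' : ℕ) : ℝ) := by exact_mod_cast hcon
      push_cast at h2 ⊢
      nlinarith
    have hJR : (J : ℝ) ≤ n := by exact_mod_cast hJ
    have hbJR : (b : ℝ) + 2 ≤ J := by exact_mod_cast hbJ
    have h2bR : 2 * (b : ℝ) ≤ n := by exact_mod_cast h2b
    have hxR : (1 : ℝ) ≤ x := by exact_mod_cast hx
    have hxbR : (x : ℝ) + 1 ≤ b := by exact_mod_cast hxb
    have hnR : (64 : ℝ) ≤ n := by exact_mod_cast h64
    set w := Real.sqrt n with hw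
    have hwn : w * w = n := Real.mul_self_sqrt (Nat.cast_nonneg _)
    have hw0 : 0 ≤ w := Real.sqrt_nonneg _
    have hw8 : 8 ≤ w := by
      rw [hw]
      apply Real.le_sqrt_of_sq_le
      linarith
    refine t1r w hw0 hwn ?_
    rcases le_or_gt (n : ℝ) (2 * J) with hA | hB
    · -- `J ≥ n / 2`
      have h1 : 3 * (n : ℝ) * n / 4 + n / 2 ≤ 2 * n * J - J * (J - 1) := by
        nlinarith [mul_nonneg (sub_nonneg.mpr hA) (sub_nonneg.mpr hJR)]
      have h2 : (b : ℝ) * (b - 1) ≤ n * n / 4 - n / 2 := by nlinarith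
      have h3 : (0 : ℝ) ≤ n * (b - 1 - x) := mul_nonneg (by linarith) (by linarith)
      have h4 : (n : ℝ) * n / 4 ≤ m := by nlinarith
      rw [← hwn] at h4
      nlinarith [mul_nonneg (mul_nonneg hw0 (mul_nonneg hw0 hw0)) (sub_nonneg.mpr hw8)]
    · set t : ℝ := (J : ℝ) + b with ht
      have h1 : 4 * (x : ℝ) * (n - J) ≤ 2 * J * b := by
        have h11 : (b : ℝ) * (b - 1) ≤ J * b := by nlinarith
        have h12 : 2 * (x : ℝ) * (n - J) ≤ x * (2 * (n - J) + x + 1) := by nlinarith
        linarith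
      have h2 : 2 * (n : ℝ) * t - t * t - 3 * t ≤ 2 * m := by
        have h21 : (0 : ℝ) ≤ (x - 1) * (n - 2 * J) := mul_nonneg (by linarith) (by linarith)
        have h22 : (J : ℝ) * (J - 1) + b * (b - 1) = t * t - 2 * J * b - t := by rw [ht]; ring
        have h23 : (2 : ℝ) * n * (J + b - 1 - x) = 2 * n * t - 2 * n - 2 * n * x := by rw [ht]; ring
        have h24 : (b : ℝ) ≤ t := by rw [ht]; linarith
        have h25 : (J : ℝ) ≤ t := by rw [ht]; linarith
        nlinarith
      have h3 : 8 * (n : ℝ) ≤ t * t := by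
        have h31 : (n : ℝ) < b * (b - 1) := by nlinarith
        have h32 : (3 : ℝ) ≤ b := by
          by_contra hc
          push Not at hc
          nlinarith
        have h33 : 2 * ((n : ℝ) - J) + 2 ≤ b * (b - 1) := by nlinarith
        obtain ⟨v, hv, hv0⟩ : ∃ v : ℝ, (J : ℝ) = b + 2 + v ∧ 0 ≤ v := ⟨J - (b + 2), by ring, by linarith⟩
        rw [ht, hv]
        rw [hv] at h33
        nlinarith [mul_nonneg hv0 (by linarith : (0 : ℝ) ≤ b - 3)]
      have ht0 : 0 ≤ t := by rw [ht]; positivity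
      have h4 : 2.82 * w ≤ t := by
        by_contra hc
        push Not at hc
        nlinarith
      have h5 : t ≤ n := by rw [ht]; linarith
      have h6 : 2.82 * w * (2 * (w * w) - 2.82 * w - 3) ≤ t * (2 * n - t - 3) := by
        rw [← hwn]
        rw [← hwn] at h5
        have : 0 ≤ (t - 2.82 * w) * (2 * (w * w) - t - 2.82 * w - 3) := by
          apply mul_nonneg
          · linarith
          · nlinarith
        nlinarith
      have h7 : 4 * (w * w * w) ≤ 2.82 * w * (2 * (w * w) - 2.82 * w - 3) := by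
        have h71 : 0 ≤ w - 8 := by linarith
        nlinarith [mul_nonneg (mul_nonneg hw0 hw0) h71, mul_nonneg hw0 h71]
      nlinarith

end Pool.Agent.W2helper64.SOS
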