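import Pool.Agent.W2helper74.SOS.Stm4

set_option autoImplicit false

/-! S1FULL, piece P7 (helper64): `Prof` -/

namespace Pool.Agent.W2helper64.SOS

open Pool.Agent.W2helper74.SOS

theorem two_mul_tri (k : ℕ) : 2 * (k * (k - 1) / 2) = k * (k - 1) := by
  have : 2 ∣ k * (k - 1) := by
    rcases k with _ | k
    · simp
    · simpa [mul_comm] using (Nat.even_mul_succ_self k).two_dvd
  omega

theorem prof : Prof := by
  intro n r e hn hr he0 he1 hen hmono hch
  have hM : Monotone e := monotone_nat_of_le_succ hmono
  classical
  have hex : ∃ j, e j = r := ⟨n, hen⟩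
  set J := Nat.find hex with hJ
  have hJr : e J = r := Nat.find_spec hex
  have hJmin : ∀ j, j < J → e j ≠ r := fun j hj => Nat.find_min hex hj
  have hJn : J ≤ n := Nat.find_min' hex hen
  have hJ2 : 2 ≤ J := by
    rcases Nat.lt_or_ge J 2 with h | h
    · exfalso
      interval_cases J <;> omega
    · exact h
  have hlt : ∀ j, j < J → e j < r := by
    intro j hj
    have h1 : e j ≤ e n := hM (by omega)
    have h2 := hJmin j hj
    omega
  have hge : ∀ j, J ≤ j → j ≤ n → e j = r := by
    intro j h1 h2
    have h3 : e J ≤ e j := hM h1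
    have h4 : e j ≤ e n := hM h2
    omega
  have F1 : ∀ d j, j + d = J → 1 ≤ j → e (j - 1) + 1 ≤ e j := by
    intro d
    induction d with
    | zero =>
      intro j hj h1
      have h2 := hlt (j - 1) (by omega)
      have h3 : j = J := by omega
      rw [h3] at h2 ⊢
      omega
    | succ d ih =>
      intro j hj h1
      have h2 := ih (j + 1) (by omega) (by omega)
      have h3 := hch j h1 (by omega)
      simp only [Nat.add_sub_cancel] at h2
      omega
  have F1' : ∀ j, j ≤ J → j ≤ e j := by
    intro j
    induction j with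
    | zero => intro _; omega
    | succ j ih =>
      intro hj
      have h1 := ih (by omega)
      have h2 := F1 (J - (j + 1)) (j + 1) (by omega) (by omega)
      simp only [Nat.add_sub_cancel] at h2
      omega
  have hJr' : J ≤ r := by
    have := F1' J le_rfl
    omega
  have G : ∀ j, 2 ≤ j → j ≤ n → e (j - 1) + 2 ≤ e j → 2 * j ≤ e j + 1 := by
    intro j h2
    induction j, h2 using Nat.le_induction with
    | base =>
      intro _ h
      simp only [Nat.reduceSub] at h
      omega
    | succ j h2 ih =>
      intro hj h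
      simp only [Nat.add_sub_cancel] at h
      have h3 := hch j (by omega) (by omega)
      have h4 := ih (by omega) (by omega)
      omega
  have H : ∀ d j, j + d = J → 2 ≤ j → e j < e (j - 1) + 2 → r ≤ e j + d := by
    intro d
    induction d with
    | zero =>
      intro j hj _ _
      have h3 : j = J := by omega
      rw [h3]; omega
    | succ d ih =>
      intro j hj h1 h2
      have h3 := hch j (by omega) (by omega)
      have h4 := ih (j + 1) (by omega) (by omega) (by simp only [Nat.add_sub_cancel]; omega)
      have h5 : e (j + 1) < e j + 2 := by omega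
      omega
  have F3 : ∀ j, 1 ≤ j → j ≤ J → 2 * j ≤ e j + 1 ∨ r + j ≤ e j + J := by
    intro j h1 h2
    rcases Nat.lt_or_ge j 2 with h | h
    · left
      have : j = 1 := by omega
      rw [this]; omega
    · rcases Nat.lt_or_ge (e j) (e (j - 1) + 2) with h' | h'
      · right
        have := H (J - j) j (by omega) h h'
        omega
      · left
        exact G j h (by omega) h'
  -- the sums
  set S : ℕ → ℕ := fun k => ∑ j ∈ Finset.range k, e (j + 1) with hS
  have hSs : ∀ k, S (k + 1) = S k + e (k + 1) := fun k => by
    simp only [hS, Finset.sum_range_succ]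
  have hS0 : S 0 = 0 := by simp [hS]
  have hSn : ∀ i, J - 1 + i ≤ n → S (J - 1 + i) = S (J - 1) + i * r := by
    intro i
    induction i with
    | zero => intro _; simp
    | succ i ih =>
      intro hi
      rw [← add_assoc, hSs, ih (by omega), hge (J - 1 + i + 1) (by omega) (by omega)]
      ring
  have hSn' : S n = S (J - 1) + (n - (J - 1)) * r := by
    have := hSn (n - (J - 1)) (by omega)
    rwa [show J - 1 + (n - (J - 1)) = n by omega] at this
  have hsplit : n * r = (J - 1) * r + (n - (J - 1)) * r := by
    rw [← add_mul]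
    congr 1
    omega
  have hsq : ∀ K, (∀ j, 1 ≤ j → j ≤ K → 2 * j ≤ e j + 1) → K * K ≤ S K := by
    intro K
    induction K with
    | zero => intro _; simp
    | succ K ih =>
      intro h
      have h1 := ih fun j a b => h j a (by omega)
      have h2 := h (K + 1) (by omega) le_rfl
      rw [hSs]
      nlinarith
  refine ⟨J, by omega, hJn, hJr', ?_⟩
  rcases Nat.lt_or_ge (r + 2) (2 * J) with hB | hA
  · right
    obtain ⟨b, hb⟩ : ∃ b, r = J + b ∧ True := ⟨r - J, by omega, trivial⟩
    obtain ⟨b', hb'⟩ : ∃ b' : ℕ, b' = b + 1 := ⟨_, rfl⟩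
    have e1 : e (J - 1) + 1 = r := by
      rcases Nat.lt_or_ge (e J) (e (J - 1) + 2) with h' | h'
      · have := hlt (J - 1) (by omega)
        omega
      · have := G J hJ2 hJn h'
        omega
    have e2 : e (J - 2) + 2 = r := by
      rcases Nat.lt_or_ge (e (J - 1)) (e (J - 1 - 1) + 2) with h' | h'
      · have h3 := F1 1 (J - 1) (by omega) (by omega)
        rw [show J - 1 - 1 = J - 2 by omega] at h' h3
        omega
      · have := G (J - 1) (by omega) (by omega) h'
        omega
    have hlow : ∀ j, 1 ≤ j → j ≤ n → j ≤ r + 1 - J → 2 * j ≤ e j + 1 := by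
      intro j h1 h2 h3
      rcases F3 j h1 (by omega) with h | h <;> omega
    refine ⟨by omega, hJr, e1, e2, ?_, hlow⟩
    have hSb : b' * b' ≤ S b' := hsq b' fun j a c => hlow j a (by omega) (by omega)
    have hSi : ∀ i, b' + i + 1 ≤ J → 2 * (b' * b') + i * (i + 4 * b' - 1) ≤ 2 * S (b' + i) := by
      intro i
      induction i with
      | zero => intro _; simpa using hSb
      | succ i ih =>
        intro hi
        have h1 := ih (by omega)
        have h2 : b' + (i + 1) + b ≤ e (b' + i + 1) := by
          rcases F3 (b' + i + 1) (by omega) (by omega) with h | h <;> omega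
        rw [← add_assoc, hSs]
        obtain ⟨c, hc⟩ : ∃ c, b' = c + 1 := ⟨b, hb'⟩
        have e3 : i + 4 * b' - 1 = i + 4 * c + 3 := by omega
        have e4 : i + 1 + 4 * b' - 1 = i + 4 * c + 4 := by omega
        rw [e3] at h1
        rw [e4]
        have h5 : b = c := by omega
        subst h5
        subst hc
        nlinarith
    have hfin := hSi (J - 1 - b') (by omega)
    rw [show b' + (J - 1 - b') = J - 1 by omega] at hfin
    show n * r ≤ S n + _
    rw [hSn', hsplit]
    obtain ⟨q, hq⟩ : ∃ q, J = b' + 1 + q := ⟨J - (b' + 1), by omega⟩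
    have t1 := two_mul_tri J
    have t2 : 2 * ((r + 1 - J) * (r - J) / 2) = b' * b := by
      have := two_mul_tri b'
      rw [show r + 1 - J = b' by omega, show r - J = b' - 1 by omega, this]
      congr 1
      omega
    have e5 : J - 1 - b' = q := by omega
    rw [e5] at hfin
    have e6 : q + 4 * b' - 1 = q + 4 * b + 3 := by omega
    rw [e6] at hfin
    have e7 : J * (J - 1) = (b + 2 + q) * (b + 1 + q) := by
      rw [hq, hb']
      congr 1
      omega
    have e8 : J - 1 = b + 1 + q := by omega
    have e9 : r = 2 * b + 2 + q := by omega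
    have key : 2 * ((J - 1) * r) ≤ 2 * S (J - 1) + J * (J - 1) + b' * b := by
      rw [e7, e9]
      have : 2 * (b' * b') + q * (q + 4 * b + 3) + (b + 2 + q) * (b + 1 + q) + b' * b =
          2 * ((J - 1) * (2 * b + 2 + q)) := by
        rw [e8, hb']
        ring
      omega
    omega
  · left
    have hlow : ∀ j, 1 ≤ j → j ≤ n → 2 * j ≤ r + 1 → 2 * j ≤ e j + 1 := by
      intro j h1 h2 h3
      rcases Nat.lt_or_ge j J with h | h
      · rcases F3 j h1 h.le with h' | h' <;> omega
      · rw [hge j h h2]
        exact h3
    refine ⟨hA, ?_, hlow⟩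
    show n * r ≤ S n + _
    have h1 : (J - 1) * (J - 1) ≤ S (J - 1) := hsq (J - 1) fun j a b => by
      rcases F3 j a (by omega) with h' | h' <;> omega
    rw [hSn', hsplit]
    obtain ⟨c, hc⟩ : ∃ c, J - 1 = c ∧ c ≤ r := ⟨J - 1, rfl, by omega⟩
    obtain ⟨d, hd⟩ : ∃ d, r = c + d := ⟨r - c, by omega⟩
    have h2 : c * d ≤ r * r / 4 := by
      rw [Nat.le_div_iff_mul_le (by norm_num)]
      rw [hd]
      zify
      nlinarith [sq_nonneg ((c : ℤ) - d)]
    have h3 : (J - 1) * r = c * c + c * d := by
      rw [hc.1, hd]; ring
    rw [hc.1] at h1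
    rw [hc.1] at h3 ⊢
    omega

end Pool.Agent.W2helper64.SOS
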