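import Pool.Agent.W2helper74.SOS.Stm4
import Pool.Agent.W2helper64.SOS.Prof

set_option autoImplicit false

/-! S1FULL, piece P8a (helper64): `NumA`, and the finite table below `64` -/

namespace Pool.Agent.W2helper64.SOS

open Pool.Agent.W2helper74.SOS

theorem t1 {n m R : ℕ} (hR : R ≤ n) (h4 : 4 * (n - 1) ≤ R * R) (hm : n * (R - 1) ≤ m) : InS n m := by
  by_cases hb : n * n ≤ m
  · exact Or.inl hb
  right
  have hn : 0 < n := by
    rcases Nat.eq_zero_or_pos n with h | h
    · subst h; simp at hb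
    · exact h
  have hdiv := Nat.div_add_mod m n
  have hmod := Nat.mod_lt m hn
  set q := m / n with hq
  set t := m % n with ht
  have hqn : q < n := by
    by_contra h
    push Not at h
    have : n * n ≤ n * q := Nat.mul_le_mul_left n h
    omega
  have hqR : R - 1 ≤ q := by
    rw [hq, Nat.le_div_iff_mul_le hn, mul_comm]
    exact hm
  rcases Nat.eq_zero_or_pos t with h0 | h0
  · refine ⟨q, 0, hqn.le, by omega, Or.inl (Nat.zero_le _)⟩
  · refine ⟨q + 1, n - t, hqn, ?_, Or.inl ?_⟩
    · rw [Nat.mul_succ]; omega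
    · rw [Nat.le_div_iff_mul_le (by norm_num)]
      have h1 : R ≤ q + 1 := by omega
      have h2 : R * R ≤ (q + 1) * (q + 1) := Nat.mul_le_mul h1 h1
      omega

theorem t1' {n m : ℕ} (h : 4 * (n * n) * (n - 1) ≤ m * m) : InS n m := by
  rcases Nat.eq_zero_or_pos n with h0 | hn
  · subst h0
    left; simp
  classical
  have hex : ∃ R, 4 * (n - 1) ≤ R * R := ⟨4 * (n - 1), Nat.le_mul_self _⟩
  set R := Nat.find hex with hR
  have h1 : 4 * (n - 1) ≤ R * R := Nat.find_spec hex
  have h2 : R ≤ n := by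
    apply Nat.find_min' hex
    obtain ⟨k, rfl⟩ : ∃ k, n = k + 1 := ⟨n - 1, by omega⟩
    simp only [Nat.add_sub_cancel]
    zify
    nlinarith [sq_nonneg ((k : ℤ) - 1)]
  refine t1 h2 h1 ?_
  rcases Nat.eq_zero_or_pos R with h0 | h0
  · rw [h0]; simp
  · have h3 : ¬ 4 * (n - 1) ≤ (R - 1) * (R - 1) := Nat.find_min hex (by omega)
    push Not at h3
    by_contra hlt
    push Not at hlt
    have h4 : m * m < (n * (R - 1)) * (n * (R - 1)) := Nat.mul_self_lt_mul_self hlt
    have h5 : (n * (R - 1)) * (n * (R - 1)) = (n * n) * ((R - 1) * (R - 1)) := by ring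
    have h6 : (n * n) * ((R - 1) * (R - 1)) ≤ (n * n) * (4 * (n - 1)) :=
      Nat.mul_le_mul_left _ h3.le
    have h7 : (n * n) * (4 * (n - 1)) = 4 * (n * n) * (n - 1) := by ring
    omega

theorem numA : NumA := by
  intro n m hn hm
  by_cases h8 : n = 8
  · subst h8
    by_cases hm40 : 40 ≤ m
    · exact t1 (R := 6) (by norm_num) (by norm_num) (by norm_num; exact hm40)
    · right
      norm_num at hm
      exact ⟨5, 40 - m, by norm_num, by omega, Or.inl (by omega)⟩
  · rcases Nat.even_or_odd' n with ⟨k, hk | hk⟩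
    · have hk5 : 5 ≤ k := by omega
      refine t1 (R := k + 1) (by omega) ?_ ?_
      · subst hk
        have : 2 * k - 1 + 1 = 2 * k := by omega
        zify at this ⊢
        nlinarith
      · subst hk
        have e : 2 * k * (2 * k + 1) / 2 = k * (2 * k + 1) := by
          rw [show 2 * k * (2 * k + 1) = 2 * (k * (2 * k + 1)) by ring, Nat.mul_div_cancel_left _ (by norm_num)]
        rw [e] at hm
        simp only [Nat.add_sub_cancel]
        nlinarith
    · have hk3 : 3 ≤ k := by omega
      refine t1 (R := k + 2) (by omega) ?_ ?_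
      · subst hk
        simp only [Nat.add_sub_cancel]
        zify
        nlinarith [sq_nonneg ((k : ℤ) - 2)]
      · subst hk
        have e : (2 * k + 1) * (2 * k + 1 + 1) / 2 = (2 * k + 1) * (k + 1) := by
          rw [show (2 * k + 1) * (2 * k + 1 + 1) = 2 * ((2 * k + 1) * (k + 1)) by ring,
            Nat.mul_div_cancel_left _ (by norm_num)]
        rw [e] at hm
        rw [show k + 2 - 1 = k + 1 by omega]
        exact hm

/-! ### the finite table -/

/-- boolean version of the second part of `InS` -/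
def inb (n m : ℕ) : Bool :=
  (List.range (n + 1)).any fun r => Nat.ble m (n * r) && (Nat.ble (n * r - m) (r * r / 4) ||
    (List.range (r + 1)).any fun a => Nat.ble (r + 1) (2 * a) && Nat.ble (a * (a - 1) / 2) (n * r - m) &&
      Nat.ble (n * r - m) (a * (a - 1) / 2 + (r + 1 - a) * (r - a) / 2))

theorem inS_of_inb {n m : ℕ} (h : inb n m = true) : InS n m := by
  unfold inb at h
  rw [List.any_eq_true] at h
  obtain ⟨r, hr, h⟩ := h
  rw [List.mem_range] at hr
  rw [Bool.and_eq_true, Nat.ble_eq, Bool.or_eq_true, Nat.ble_eq, List.any_eq_true] at h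
  obtain ⟨h1, h2⟩ := h
  right
  refine ⟨r, n * r - m, by omega, by omega, ?_⟩
  rcases h2 with h2 | ⟨a, ha, h2⟩
  · exact Or.inl h2
  · rw [List.mem_range] at ha
    simp only [Bool.and_eq_true, Nat.ble_eq] at h2
    exact Or.inr ⟨a, by omega, h2.1.1, h2.1.2, h2.2⟩

/-- one more than the largest gap, for `n = 7, ..., 63` -/
def gtab : List ℕ := [24, 28, 38, 43, 48, 53, 67, 73, 92, 99, 106, 113, 120, 142, 150, 158, 166, 174, 182,
  210, 219, 228, 237, 246, 255, 264, 299, 309, 319, 362, 373, 384, 395, 406, 417, 428, 439, 486, 498, 510,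
  522, 534, 546, 558, 570, 582, 638, 651, 664, 677, 690, 703, 716, 729, 742, 755, 821]

def gt (n : ℕ) : ℕ := gtab.getD (n - 7) 0

/-- least `R` with `4 (n - 1) ≤ R ^ 2` -/
def rt (n : ℕ) : ℕ := Nat.sqrt (4 * (n - 1) - 1) + 1

def chkA : Bool := (List.range 57).all fun i =>
  Nat.ble (rt (i + 7)) (i + 7) && Nat.ble (4 * (i + 6)) (rt (i + 7) * rt (i + 7)) &&
    (List.range ((i + 7) * (rt (i + 7) - 1) - gt (i + 7))).all fun k => inb (i + 7) (gt (i + 7) + k)

set_option maxRecDepth 100000 in
theorem chkA_true : chkA = true := by decide +kernel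

theorem inS_of_gt {n m : ℕ} (h7 : 7 ≤ n) (h64 : n < 64) (hm : gt n ≤ m) : InS n m := by
  have h := chkA_true
  unfold chkA at h
  rw [List.all_eq_true] at h
  have h1 := h (n - 7) (by rw [List.mem_range]; omega)
  rw [show n - 7 + 7 = n by omega, show n - 7 + 6 = n - 1 by omega] at h1
  simp only [Bool.and_eq_true, Nat.ble_eq, List.all_eq_true, List.mem_range] at h1
  obtain ⟨⟨h2, h3⟩, h4⟩ := h1
  rcases Nat.lt_or_ge m (n * (rt n - 1)) with h5 | h5
  · have := inS_of_inb (h4 (m - gt n) (by omega))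
    rwa [show gt n + (m - gt n) = m by omega] at this
  · exact t1 h2 h3 h5

end Pool.Agent.W2helper64.SOS
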